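import Pool.Agent.BICS.Base
import Pool.Agent.Helper77.G.Asm

/-!
# Theorem DD (two-sided counting) for MP_5165fa_co: definitions (helper57)
-/

open Set BIC BICS
open scoped Matroid

namespace DD

/-- the snake through `w + 2` columns of height `w`: a tile (`w` columns) and two more columns -/
def gad (w x y : ℕ) : List (ℕ × ℕ) :=
  (List.range ((w + 2) * w)).map fun z =>
    (x + z / w, y + if z / w % 2 = 0 then z % w else w - 1 - z % w)

/-- width of a slot -/
def wd (k w : ℕ) : ℕ := 2 * k + w + 6

/-- height of a row of slots -/
def ht (k w : ℕ) : ℕ := 3 * k + w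

/-- first coordinate of the corner of the tile in the column `c` of slots -/
def tx (k w x c : ℕ) : ℕ := x + (k + 1) + c * wd k w + (k + 2)

/-- second coordinate of the corner of the tile in the row `r` of slots -/
def ty (k w y r : ℕ) : ℕ := y + r * ht k w + k

end DD
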